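import Pool.Agent.H54.LQ.Targets

/-!
# Row BTG of lpq_modules: tightness is Borel
-/

set_option autoImplicit false

open Set Filter Topology

namespace Pool.Agent.H39.LQ

open Pool.Agent.H93.CP Pool.Agent.H7.LP Pool.Agent.H7.LQ Pool.Agent.H54.LQ

/-- BTG: tightness is Borel. -/
theorem pf_BTG (h1 : T_KXA) (h2 : T_FIN) (h3 : T_TGC) (h4 : T_DEL) (h5 : T_BKX) : T_BTG := by
  intro G X _ _ _ _ _ _ _ _ B L M _ Y k m
  obtain ⟨δ, hδm, hδs, hδd⟩ := h4 G X L M Y
  have e : {p : X × G | Tight (L.R k) (KX B L Y k m p.1 p.2)} =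
      {p : X × G | ∀ m', m ≤ m' → ∃ F : Finset ℕ, ∀ n, δ k n p ∈ KX B L Y k m p.1 p.2 →
        ∃ f, f ∈ F ∧ (δ k f p)⁻¹ * δ k n p ∈ KX B L Y k m' p.1 p.2} := by
    ext p
    simp only [mem_ofPred_eq]
    rw [h3 G X B L M Y k m p.1 p.2]
    obtain ⟨a1, a2, -, -⟩ := h1 G X B L M Y k p.1 p.2
    refine forall_congr' fun m' => forall_congr' fun hm => ?_
    exact h2 G _ _ _ (fun n => δ k n p) (a2 m m' hm) (a1 m).2.1 (a1 m').2.2.1
      (fun n => hδs k n p) (hδd k p)
  rw [e]
  have hK : ∀ (m' : ℕ) (φ : X × G → G), Measurable φ →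
      Measurable fun p : X × G => φ p ∈ KX B L Y k m' p.1 p.2 := by
    intro m' φ hφ
    have h6 := (h5 G X B L M Y k m').preimage (f := fun p : X × G => (p, φ p))
      (measurable_id.prodMk hφ)
    have h7 : (fun p : X × G => (p, φ p)) ⁻¹' {p : (X × G) × G | p.2 ∈ KX B L Y k m' p.1.1 p.1.2} =
        {p : X × G | φ p ∈ KX B L Y k m' p.1 p.2} := by
      ext p
      exact Iff.rfl
    rw [h7] at h6
    exact measurableSet_setOfPred.1 h6
  apply measurableSet_setOfPred.2
  refine Measurable.forall fun m' => Measurable.imp measurable_const ?_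
  refine Measurable.exists fun F => Measurable.forall fun n => ?_
  refine Measurable.imp (hK m _ (hδm k n)) (Measurable.exists fun f => ?_)
  exact Measurable.and measurable_const (hK m' _ ((hδm k f).inv.mul (hδm k n)))

end Pool.Agent.H39.LQ
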