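import Pool.Agent.H69.LQ.Lib

/-!
# Row MC of the board lqm_modules: polar coordinates for continuous functions on annuli
-/

set_option autoImplicit false

open MeasureTheory Metric Set
open scoped ENNReal

open Pool.Agent.H85.LK (E adm lam Ann)
open Pool.Agent.H69.LQ

namespace Pool.Agent.H39.LQ.MC

theorem an_open {N : ℕ} (c d : ℝ) : IsOpen (an c d : Set (E N)) :=
  (isOpen_lt continuous_const continuous_norm).inter (isOpen_lt continuous_norm continuous_const)

theorem mem_an {N : ℕ} {c d r : ℝ} (hr : 0 < r) (θ : Sp N) :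
    r • (θ : E N) ∈ (an c d : Set (E N)) ↔ r ∈ Ioo c d := by
  change (c < ‖r • (θ : E N)‖ ∧ ‖r • (θ : E N)‖ < d) ↔ (c < r ∧ r < d)
  rw [norm_smul_sp, abs_of_pos hr]

theorem ray {N : ℕ} (g : E N → ℝ) {c d : ℝ} (hc : 0 ≤ c) (hcd : c ≤ d) (θ : Sp N) :
    ∫ r in Ioi (0 : ℝ), r ^ (N - 1) * (an c d : Set (E N)).indicator g (r • (θ : E N)) =
      ∫ r in c..d, r ^ (N - 1) * rs g r θ := by
  rw [intervalIntegral.integral_of_le hcd, integral_Ioc_eq_integral_Ioo]
  have h1 : ∫ r in Ioi (0 : ℝ), r ^ (N - 1) * (an c d : Set (E N)).indicator g (r • (θ : E N)) =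
      ∫ r in Ioi (0 : ℝ), (Ioo c d).indicator (fun r => r ^ (N - 1) * rs g r θ) r := by
    refine setIntegral_congr_fun measurableSet_Ioi fun r hr => ?_
    rw [mem_Ioi] at hr
    change r ^ (N - 1) * (an c d : Set (E N)).indicator g (r • (θ : E N)) =
      (Ioo c d).indicator (fun r => r ^ (N - 1) * rs g r θ) r
    by_cases h : r ∈ Ioo c d
    · rw [indicator_of_mem h, indicator_of_mem ((mem_an hr θ).2 h), rs]
    · rw [indicator_of_notMem h, indicator_of_notMem (fun h' => h ((mem_an hr θ).1 h')), mul_zero]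
  rw [h1, setIntegral_indicator measurableSet_Ioo]
  congr 2
  ext r
  simp only [mem_inter_iff, mem_Ioi, mem_Ioo]
  constructor
  · exact fun h => h.2
  · exact fun h => ⟨lt_of_le_of_lt hc h.1, h⟩

theorem swap {N : ℕ} (g : E N → ℝ) (hg : Continuous g) {c d : ℝ} (hcd : c ≤ d) :
    av (fun θ : Sp N => ∫ r in c..d, r ^ (N - 1) * rs g r θ) =
      ∫ r in c..d, r ^ (N - 1) * av (rs g r) := by
  have hcont : Continuous fun p : Sp N × ℝ => p.2 ^ (N - 1) * rs g p.2 p.1 := by
    unfold rs
    fun_prop
  have hint : Integrable (fun p : Sp N × ℝ => p.2 ^ (N - 1) * rs g p.2 p.1)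
      ((mS N).prod (volume.restrict (Ioc c d))) := by
    have h2 : (mS N).prod ((volume : Measure ℝ).restrict (Ioc c d)) =
        ((mS N).prod (volume : Measure ℝ)).restrict (univ ×ˢ Ioc c d) := by
      rw [← Measure.prod_restrict, Measure.restrict_univ]
    rw [h2]
    have h3 : IntegrableOn (fun p : Sp N × ℝ => p.2 ^ (N - 1) * rs g p.2 p.1)
        (univ ×ˢ Icc c d) ((mS N).prod (volume : Measure ℝ)) :=
      hcont.continuousOn.integrableOn_compact (isCompact_univ.prod isCompact_Icc)
    exact h3.mono_set (prod_mono_right Ioc_subset_Icc_self)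
  unfold av
  simp only [intervalIntegral.integral_of_le hcd]
  rw [integral_integral_swap (f := fun (θ : Sp N) (r : ℝ) => r ^ (N - 1) * rs g r θ) hint]
  refine setIntegral_congr_fun measurableSet_Ioc fun r _ => ?_
  exact integral_const_mul _ _

theorem pf_MC (hMP : T_MP) : T_MC := by
  intro N g c d hN hg hc hcd
  have h2 : ∫ x in an c d, g x = ar N * av (fun θ => ∫ r in c..d, r ^ (N - 1) * rs g r θ) := by
    have hint : Integrable ((an c d : Set (E N)).indicator g) := by
      rw [integrable_indicator_iff (an_open c d).measurableSet]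
      refine (hg.continuousOn.integrableOn_compact (isCompact_closedBall (0 : E N) d)).mono_set ?_
      intro x hx
      rw [mem_closedBall_zero_iff]
      exact hx.2.le
    have h := (hMP N hN).2.2.2 _ hint
    rw [← integral_indicator (an_open c d).measurableSet, h.2.2]
    congr 2
    funext θ
    exact ray g hc hcd θ
  refine ⟨?_, h2, ?_⟩
  · rw [h2, swap g hg hcd]
  · refine setIntegral_congr_set ?_
    haveI : Nonempty (Fin N) := ⟨⟨0, by omega⟩⟩
    have h0 : volume ({0} : Set (E N)) = 0 := measure_singleton _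
    have h3 : ball (0 : E N) d ⊆ an 0 d ∪ {0} := by
      intro x hx
      rw [mem_ball_zero_iff] at hx
      by_cases h : x = 0
      · exact Or.inr h
      · exact Or.inl ⟨norm_pos_iff.2 h, hx⟩
    have h4 : (an 0 d : Set (E N)) ⊆ ball (0 : E N) d := by
      intro x hx
      rw [mem_ball_zero_iff]
      exact hx.2
    refine Filter.EventuallyLE.antisymm ?_ h4.eventuallyLE
    rw [ae_le_set]
    refine measure_mono_null ?_ h0
    intro x hx
    rcases h3 hx.1 with h | h
    · exact absurd h hx.2
    · exact h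

end Pool.Agent.H39.LQ.MC
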